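import Pool.Agent.Lib.MP_8cdb7a_ag.Vf5

/-!
# Quasi-smooth hypersurfaces of degree `a_1 + a_2 + a_3 + a_4` in `P(1, a_1, a_2, a_3, a_4)`

Over an algebraically closed field of any characteristic they have no infinitesimal
automorphisms, and their equation is separable in every variable.
-/

set_option autoImplicit false

open MvPolynomial

namespace Pool.Agent.Results.MP_8cdb7a_ag.NoVectorFields

universe u

theorem result (k : Type u) [Field k] [IsAlgClosed k]
    -- the weights `1, a_1, a_2, a_3, a_4`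
    (a : Fin 5 → ℕ) (ha0 : a 0 = 1) (ha : ∀ i, 1 ≤ a i)
    -- the equation, weighted homogeneous of degree `a_1 + a_2 + a_3 + a_4`
    (F : MvPolynomial (Fin 5) k) (hF : IsWeightedHomogeneous a F (a 1 + a 2 + a 3 + a 4))
    -- quasi-smooth: the affine cone is smooth away from its vertex
    (hqs : ∀ v : Fin 5 → k, eval v F = 0 → (∀ j, eval v (pderiv j F) = 0) → v = 0) :
    -- a derivation of degree `0` which preserves the ideal `(F)` is a multiple of the Euler
    -- derivation `x_j ↦ a_j x_j`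
    (∀ D : Derivation k (MvPolynomial (Fin 5) k) (MvPolynomial (Fin 5) k),
      (∀ j, IsWeightedHomogeneous a (D (X j)) (a j)) → D F ∈ Ideal.span {F} →
        ∃ c : k, ∀ j, D (X j) = C (c * a j) * X j) ∧
    -- no partial derivative vanishes on the hypersurface
    (∀ i, i ≠ 0 → pderiv i F ∉ Ideal.span {F}) ∧
    ((∃ j, j ≠ 0 ∧ (a j : k) ≠ 0) → pderiv 0 F ∉ Ideal.span {F}) := by
  have h1 := ha 1
  have h2 := ha 2
  have h3 := ha 3
  have h4 := ha 4
  have hd1 : ∀ j, a j < a 1 + a 2 + a 3 + a 4 := by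
    intro j
    fin_cases j <;> simp only [Fin.isValue, Fin.reduceFinMk, Fin.mk_one, Fin.zero_eta] <;> omega
  have hd3 : ∀ i j l, i ≠ j → l ≠ i → l ≠ j → a i + a j + a l < a 1 + a 2 + a 3 + a 4 := by
    intro i j l hij hli hlj
    fin_cases i <;> fin_cases j <;> fin_cases l <;>
      simp only [Fin.isValue, Fin.reduceFinMk, Fin.mk_one, Fin.zero_eta, ne_eq, not_true_eq_false]
        at hij hli hlj ⊢ <;> omega
  have hd2 : ∀ i j, i ≠ j → a i + a j < a 1 + a 2 + a 3 + a 4 := by
    intro i j hij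
    fin_cases i <;> fin_cases j <;>
      simp only [Fin.isValue, Fin.reduceFinMk, Fin.mk_one, Fin.zero_eta, ne_eq, not_true_eq_false]
        at hij ⊢ <;> omega
  refine ⟨fun D hD hDF => ?_, fun i hi h => ?_, fun hj h => ?_⟩
  · exact MP_8cdb7a_ag.vector_fields a ha ha0 _ hd1 hd2 hd3 F hF hqs D hD hDF
  · refine MP_8cdb7a_ag.pderiv_ne_zero a ha ha0 _ hd1 hd2 hd3 F hF hqs i
      ⟨0, fun h => hi h.symm, ?_⟩ (MP_8cdb7a_ag.pderiv_mem a ha _ hd1 F hF i h)
    rw [ha0, Nat.cast_one]
    exact one_ne_zero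
  · exact MP_8cdb7a_ag.pderiv_ne_zero a ha ha0 _ hd1 hd2 hd3 F hF hqs 0 hj
      (MP_8cdb7a_ag.pderiv_mem a ha _ hd1 F hF 0 h)

end Pool.Agent.Results.MP_8cdb7a_ag.NoVectorFields
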